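import Pool.Agent.H98.KS.Targets1

/-!
# MP_ff41bc_an, module AB: abstract count of bad tuples
-/

open scoped BigOperators

noncomputable section

namespace Pool.Agent.H13.KS

open Pool.Agent.H98.KS MeasureTheory

open Classical in
/-- counting with one free coordinate -/
theorem count_update {X : Type*} (n : ℕ) (G : Finset X) (Q : (Fin (n + 1) → X) → Prop)
    (j : Fin (n + 1)) (θ : ℝ)
    (h : ∀ y, ((G.filter (fun g => Q (Function.update y j g))).card : ℝ) ≤ θ * G.card) :
    (((Fintype.piFinset (fun _ : Fin (n + 1) => G)).filter Q).card : ℝ)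
      ≤ θ * (G.card : ℝ) ^ (n + 1) := by
  set P := Fintype.piFinset (fun _ : Fin (n + 1) => G) with hP
  have hPc : P.card = G.card ^ (n + 1) := by
    rw [hP, Fintype.card_piFinset]
    simp
  have key : (P.filter Q).card * G.card
      = ∑ y ∈ P, (G.filter (fun g => Q (Function.update y j g))).card := by
    rw [← Finset.card_product, ← Finset.card_sigma]
    refine Finset.card_bij' (fun z _ => (⟨Function.update z.1 j z.2, z.1 j⟩ : Σ _ : Fin (n + 1) → X, X))
      (fun z _ => (Function.update z.1 j z.2, z.1 j)) ?_ ?_ ?_ ?_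
    · rintro ⟨y, g⟩ hz
      simp only [Finset.mem_product, Finset.mem_filter, hP, Fintype.mem_piFinset] at hz
      simp only [Finset.mem_sigma, Finset.mem_filter, hP, Fintype.mem_piFinset]
      refine ⟨fun i => ?_, hz.1.1 j, ?_⟩
      · by_cases hi : i = j
        · subst hi; rw [Function.update_self]; exact hz.2
        · rw [Function.update_of_ne hi]; exact hz.1.1 i
      · rw [Function.update_idem, Function.update_eq_self]
        exact hz.1.2
    · rintro ⟨y, g⟩ hz
      simp only [Finset.mem_sigma, Finset.mem_filter, hP, Fintype.mem_piFinset] at hz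
      simp only [Finset.mem_product, Finset.mem_filter, hP, Fintype.mem_piFinset]
      refine ⟨⟨fun i => ?_, hz.2.2⟩, hz.1 j⟩
      by_cases hi : i = j
      · subst hi; rw [Function.update_self]; exact hz.2.1
      · rw [Function.update_of_ne hi]; exact hz.1 i
    · rintro ⟨y, g⟩ _
      simp
    · rintro ⟨y, g⟩ _
      simp
  rcases Nat.eq_zero_or_pos G.card with h0 | h0
  · have h1 : (P.filter Q).card = 0 := by
      have : (P.filter Q).card ≤ P.card := Finset.card_filter_le _ _
      rw [hPc, h0, zero_pow (Nat.succ_ne_zero n)] at this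
      omega
    rw [h1, h0]
    simp
  · have h1 : (0 : ℝ) < G.card := by exact_mod_cast h0
    have h2 : ((P.filter Q).card : ℝ) * G.card ≤ (θ * (G.card : ℝ) ^ (n + 1)) * G.card := by
      have h3 : ((P.filter Q).card : ℝ) * G.card
          = ∑ y ∈ P, ((G.filter (fun g => Q (Function.update y j g))).card : ℝ) := by
        exact_mod_cast key
      rw [h3]
      calc ∑ y ∈ P, ((G.filter (fun g => Q (Function.update y j g))).card : ℝ)
          ≤ ∑ _y ∈ P, θ * G.card := Finset.sum_le_sum fun y _ => h y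
        _ = (θ * (G.card : ℝ) ^ (n + 1)) * G.card := by
          rw [Finset.sum_const, hPc, nsmul_eq_mul]
          push_cast
          ring
    exact le_of_mul_le_mul_right h2 h1

theorem ks_AB : T_AB := by
  classical
  intro d n G Ev T θ ω hθ hω hT hEv hcount
  set P := Fintype.piFinset (fun _ : Fin (n + 1) => G) with hP
  set Bd : (Fin (n + 1) → Fin d → ℤ) → Set (Fin n → ℝ) := fun y =>
    {τ : Fin n → ℝ | (∀ i, 0 ≤ τ i ∧ τ i ≤ 1) ∧ Ev τ y ∧ ∃ j, τ j ∉ T} with hBd
  have hmeas : ∀ y, MeasurableSet (Bd y) := by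
    intro y
    have h1 : MeasurableSet {τ : Fin n → ℝ | ∀ i, 0 ≤ τ i ∧ τ i ≤ 1} := by
      have : {τ : Fin n → ℝ | ∀ i, 0 ≤ τ i ∧ τ i ≤ 1} = ⋂ i, (fun τ : Fin n → ℝ => τ i) ⁻¹' Set.Icc 0 1 := by
        ext τ
        simp [Set.mem_Icc]
      rw [this]
      exact MeasurableSet.iInter fun i => measurable_pi_apply i measurableSet_Icc
    have h2 : MeasurableSet {τ : Fin n → ℝ | ∃ j, τ j ∉ T} := by
      have : {τ : Fin n → ℝ | ∃ j, τ j ∉ T} = ⋃ j, (fun τ : Fin n → ℝ => τ j) ⁻¹' Tᶜ := by
        ext τ
        simp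
      rw [this]
      exact MeasurableSet.iUnion fun j => measurable_pi_apply j hT.compl
    exact h1.inter ((hEv y).inter h2)
  set K : ENNReal := ENNReal.ofReal (θ * (G.card : ℝ) ^ (n + 1)) with hK
  have hpt : ∀ τ : Fin n → ℝ, ∑ y ∈ P, (Bd y).indicator (fun _ => (1 : ENNReal)) τ
      ≤ (Set.Icc (0 : Fin n → ℝ) 1).indicator (fun _ => K) τ := by
    intro τ
    by_cases hτ : τ ∈ Set.Icc (0 : Fin n → ℝ) 1
    · rw [Set.indicator_of_mem hτ]
      by_cases hj : ∃ j, τ j ∉ T
      · obtain ⟨j, hj⟩ := hj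
        have h1 := count_update n G (Ev τ) j.succ θ
          (hcount τ (fun i => ⟨hτ.1 i, hτ.2 i⟩) j hj)
        calc ∑ y ∈ P, (Bd y).indicator (fun _ => (1 : ENNReal)) τ
            ≤ ∑ y ∈ P, (if Ev τ y then (1 : ENNReal) else 0) := by
              refine Finset.sum_le_sum fun y _ => ?_
              by_cases hy : τ ∈ Bd y
              · rw [Set.indicator_of_mem hy, if_pos hy.2.1]
              · rw [Set.indicator_of_notMem hy]
                exact zero_le
          _ = ((P.filter (Ev τ)).card : ENNReal) := by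
              rw [← Finset.sum_filter, Finset.sum_const, nsmul_eq_mul, mul_one]
          _ = ENNReal.ofReal ((P.filter (Ev τ)).card : ℝ) := (ENNReal.ofReal_natCast _).symm
          _ ≤ K := ENNReal.ofReal_le_ofReal h1
      · have h1 : ∀ y ∈ P, (Bd y).indicator (fun _ => (1 : ENNReal)) τ = 0 := by
          intro y _
          rw [Set.indicator_of_notMem]
          exact fun hy => hj hy.2.2
        rw [Finset.sum_eq_zero h1]
        exact zero_le
    · have h1 : ∀ y ∈ P, (Bd y).indicator (fun _ => (1 : ENNReal)) τ = 0 := by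
        intro y _
        rw [Set.indicator_of_notMem]
        exact fun hy => hτ ⟨fun i => (hy.1 i).1, fun i => (hy.1 i).2⟩
      rw [Finset.sum_eq_zero h1]
      exact zero_le
  have hsum : ∑ y ∈ P, volume (Bd y) ≤ K := by
    calc ∑ y ∈ P, volume (Bd y)
        = ∑ y ∈ P, ∫⁻ τ, (Bd y).indicator (fun _ => (1 : ENNReal)) τ := by
          refine Finset.sum_congr rfl fun y _ => ?_
          exact (lintegral_indicator_one (hmeas y)).symm
      _ = ∫⁻ τ, ∑ y ∈ P, (Bd y).indicator (fun _ => (1 : ENNReal)) τ :=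
          (lintegral_finsetSum P fun y _ => measurable_const.indicator (hmeas y)).symm
      _ ≤ ∫⁻ τ, (Set.Icc (0 : Fin n → ℝ) 1).indicator (fun _ => K) τ := lintegral_mono hpt
      _ = K * volume (Set.Icc (0 : Fin n → ℝ) 1) := by
          rw [lintegral_indicator measurableSet_Icc, setLIntegral_const]
      _ = K := by
          rw [Real.volume_Icc_pi]
          simp
  set Bad := P.filter (fun y => ENNReal.ofReal ω < volume (Bd y)) with hBad
  have hbad : (Bad.card : ENNReal) * ENNReal.ofReal ω ≤ K := by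
    calc (Bad.card : ENNReal) * ENNReal.ofReal ω = ∑ _y ∈ Bad, ENNReal.ofReal ω := by
          rw [Finset.sum_const, nsmul_eq_mul]
      _ ≤ ∑ y ∈ Bad, volume (Bd y) := by
          refine Finset.sum_le_sum fun y hy => ?_
          exact (Finset.mem_filter.1 hy).2.le
      _ ≤ ∑ y ∈ P, volume (Bd y) :=
          Finset.sum_le_sum_of_subset (Finset.filter_subset _ _)
      _ ≤ K := hsum
  have hreal : (Bad.card : ℝ) * ω ≤ θ * (G.card : ℝ) ^ (n + 1) := by
    rw [← ENNReal.ofReal_natCast, ← ENNReal.ofReal_mul (Nat.cast_nonneg _), hK] at hbad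
    exact (ENNReal.ofReal_le_ofReal_iff (by positivity)).1 hbad
  have hfin : (Bad.card : ℝ) ≤ θ / ω * (G.card : ℝ) ^ (n + 1) := by
    rw [div_mul_eq_mul_div, le_div_iff₀ hω]
    exact hreal
  convert hfin using 2

end Pool.Agent.H13.KS
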